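import Pool.Agent.H260.CV.Concl

/-!
# The normal-to-Chernoff transform is convex on the positive half-line

`Z` is the almost surely unique maximiser over the real line of `W(t) - t^2`, `W` a two-sided
standard Brownian motion.  Groeneboom (1985, 1989) showed that `Z` has the density
`f_Z(t) = (1/2) g(t) g(-t)`, where the function `g` has the Fourier transform
`∫ exp(iλs) g(s) ds = 2^{1/3} / Ai(i 2^{-1/3} λ)`, with `Ai` the Airy function.  This formula is
how Chernoff's distribution enters here.  `F_Z` is the distribution function, `Φ` the standard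
normal one.

The proof: with `p` the inverse Fourier transform of `1/Ai(iω)` one has
`f_Z(t) = b p(kt) p(-kt)`, and `(log p)'''' ≤ 0` everywhere (variation diminution, expansion of the
logarithmic derivative of `Ai` over its zeros, and the Airy equation); hence `-(log f_Z)'` is convex
on `[0,∞)` and a comparison of tails gives the convexity of `Φ^{-1} ∘ F_Z` on `[0,∞)`.
-/

set_option autoImplicit false

open Complex MeasureTheory Set

namespace Pool.Agent.Results.MP_0e7bd3_pr.ChernoffVanZwet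

/-- the Airy function `Ai(z) = (1/2π) ∫ exp(i (w^3/3 + z w)) dw` over the line `Im w = 1` -/
noncomputable def airy (z : ℂ) : ℂ :=
  ((1 / (2 * Real.pi) : ℝ) : ℂ) *
    ∫ s : ℝ, cexp (I * (((s : ℂ) + I) ^ 3 / 3 + z * ((s : ℂ) + I)))

/-- `g` is Groeneboom's function: it is continuous and integrable and
`∫ exp(iλs) g(s) ds = 2^{1/3} / Ai(i 2^{-1/3} λ)` for every real `λ` -/
structure IsGroeneboom (g : ℝ → ℝ) : Prop where
  cont : Continuous g
  integrable : Integrable g
  transform : ∀ l : ℝ, ∫ s : ℝ, cexp (I * (l : ℂ) * (s : ℂ)) * ((g s : ℝ) : ℂ) =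
    (((2 : ℝ) ^ ((1 : ℝ) / 3) : ℝ) : ℂ) /
      airy (I * ((((2 : ℝ) ^ (-((1 : ℝ) / 3)) : ℝ) * l : ℝ) : ℂ))

/-- Chernoff's density `f_Z(t) = (1/2) g(t) g(-t)` -/
noncomputable def chernoff (g : ℝ → ℝ) (t : ℝ) : ℝ := 1 / 2 * g t * g (-t)

/-- the distribution function `F_Z(w) = ∫_{-∞}^w f_Z` of Chernoff's distribution -/
noncomputable def chernoffCdf (g : ℝ → ℝ) (w : ℝ) : ℝ := ∫ t in Set.Iic w, chernoff g t

/-- the standard normal distribution function `Φ` -/
noncomputable def normalCdf (x : ℝ) : ℝ :=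
  ∫ t in Set.Iic x, (Real.sqrt (2 * Real.pi))⁻¹ * Real.exp (-(t ^ 2) / 2)

/-- Groeneboom's function exists and is unique.  Chernoff's density `f_Z` is positive, even, has
total mass one, and `-(log f_Z)'` is convex on `[0,∞)`.  There is exactly one function
`T = Φ^{-1} ∘ F_Z`, that is, one `T` with `Φ(T(w)) = F_Z(w)` for all `w`, and `T` is convex on
`[0,∞)`. -/
theorem result :
    (∃! g : ℝ → ℝ, IsGroeneboom g) ∧
    ∀ g : ℝ → ℝ, IsGroeneboom g →
      (∀ t, 0 < chernoff g t) ∧ (∀ t, chernoff g (-t) = chernoff g t) ∧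
      Integrable (chernoff g) ∧ (∫ t, chernoff g t = 1) ∧
      ConvexOn ℝ (Set.Ici (0 : ℝ)) (fun t => -(deriv (fun s => Real.log (chernoff g s)) t)) ∧
      (∃! T : ℝ → ℝ, ∀ w, normalCdf (T w) = chernoffCdf g w) ∧
      ∀ T : ℝ → ℝ, (∀ w, normalCdf (T w) = chernoffCdf g w) →
        ConvexOn ℝ (Set.Ici (0 : ℝ)) T := by
  have hg0 : IsGroeneboom (fun t => (Pool.Agent.R748.CH.gG t).re) :=
    ⟨Pool.Agent.H260.CH.g_cont, Pool.Agent.H260.CH.g_int, Pool.Agent.H260.CH.g_fourier⟩
  have huniq : ∀ g : ℝ → ℝ, IsGroeneboom g → g = fun t => (Pool.Agent.R748.CH.gG t).re := by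
    intro g hg
    refine Pool.Agent.H260.CH.g_unique hg.cont hg.integrable hg0.cont hg0.integrable (fun l => ?_)
    rw [hg.transform l, hg0.transform l]
  refine ⟨⟨_, hg0, fun g hg => huniq g hg⟩, fun g hg => ?_⟩
  rw [huniq g hg]
  exact Pool.Agent.H260.CV.concl

end Pool.Agent.Results.MP_0e7bd3_pr.ChernoffVanZwet
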